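import Pool.Agent.helper63.LB.L

/-! Module A of project LB (repeated factors): `rep_level`. -/

namespace Pool.Agent.helper20.LB

theorem A_shift_right {g : ℤ → ℤ} {x M p c0 : ℤ} (hp : 0 < p) (hc1 : x ≤ c0) (hc2 : c0 ≤ x + M)
    (hper : ∀ u, x ≤ u → u ≤ x + M → g (u + p) = g u) :
    ∀ u, x ≤ u → u ≤ x + M + p → ∃ u', c0 ≤ u' ∧ u' ≤ c0 + p ∧ g u' = g u := by
  have h1 : ∀ n : ℕ, ∀ u, x ≤ u → u ≤ c0 → c0 - u ≤ n → ∃ u', c0 ≤ u' ∧ u' ≤ c0 + p ∧ g u' = g u := by
    intro n
    induction n with
    | zero =>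
      intro u _ h2 h3
      exact ⟨u, by push_cast at h3; omega, by omega, rfl⟩
    | succ n ih =>
      intro u h1 h2 h3
      by_cases h : u + p ≤ c0
      · obtain ⟨u', a, b, c⟩ := ih (u + p) (by omega) h (by push_cast at h3; omega)
        exact ⟨u', a, b, by rw [c, hper u h1 (by omega)]⟩
      · exact ⟨u + p, by omega, by omega, hper u h1 (by omega)⟩
  have h2 : ∀ n : ℕ, ∀ u, c0 + p ≤ u → u ≤ x + M + p → u - (c0 + p) ≤ n →
      ∃ u', c0 ≤ u' ∧ u' ≤ c0 + p ∧ g u' = g u := by
    intro n
    induction n with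
    | zero =>
      intro u h2 _ h3
      exact ⟨u, by omega, by push_cast at h3; omega, rfl⟩
    | succ n ih =>
      intro u h1 h2 h3
      have e := hper (u - p) (by omega) (by omega)
      have e' : u - p + p = u := by ring
      rw [e'] at e
      by_cases h : c0 + p ≤ u - p
      · obtain ⟨u', a, b, c⟩ := ih (u - p) h (by omega) (by push_cast at h3; omega)
        exact ⟨u', a, b, by rw [c, e]⟩
      · exact ⟨u - p, by omega, by omega, e.symm⟩
  intro u hu1 hu2
  rcases le_total u c0 with h | h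
  · exact h1 (c0 - u).toNat u hu1 h (by omega)
  · rcases le_total u (c0 + p) with h' | h'
    · exact ⟨u, h, h', rfl⟩
    · exact h2 (u - (c0 + p)).toNat u h' hu2 (by omega)

theorem rep_level {f : ℤ → ℤ} (hf : Step f) {x x' M k : ℤ} (hx : x < x') (hM : 0 ≤ M)
    (hrep : ∀ j, 0 ≤ j → j ≤ M → f (x' + j) - f x' = f (x + j) - f x) (hk : 1 ≤ k)
    (hk2 : 2 * k + 2 ≤ f (x + M) - f x) :
    ∃ c r, 1 ≤ r ∧ x ≤ c - r ∧ c + r ≤ x' + M ∧ f c - f (c - r) = k ∧ f (c + r) - f c = k := by
  obtain ⟨p, rfl⟩ : ∃ p, x' = x + p := ⟨x' - x, by ring⟩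
  have hp : 0 < p := by omega
  set q := f (x + p) - f x with hq
  have hper : ∀ u, x ≤ u → u ≤ x + M → f (u + p) = f u + q := by
    intro u h1 h2
    have := hrep (u - x) (by omega) (by omega)
    have e1 : x + p + (u - x) = u + p := by ring
    have e2 : x + (u - x) = u := by ring
    rw [e1, e2] at this
    omega
  obtain ⟨c0, hc1, hc2, hc3⟩ := L_ivt (g := fun u => f u - f x) (k := k + 1) (a := x) (b := x + M)
    (by intro y _ _; have := (hf y).2; omega) (by omega) (by omega) (by omega)
  have hpM := hper (x + M) (by omega) le_rfl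
  have hpx := hper x le_rfl (by omega)
  have hpc := hper c0 hc1 hc2
  -- left and right bounds valid for all points of `[c0, c0+p]`
  have hleft : ∀ y, c0 ≤ y → k + 1 ≤ f y - f x := by
    intro y h
    have := L_mono hf h
    omega
  have hright : ∀ y, y ≤ c0 + p → k + 1 ≤ f (x + M + p) - f y := by
    intro y h
    have := L_mono hf h
    omega
  -- a witness for `Pos` may be taken inside
  have hwit : ∀ y, c0 ≤ y → y ≤ c0 + p → Pos f k y →
      ∃ r, 1 ≤ r ∧ x ≤ y - r ∧ y + r ≤ x + M + p ∧ f y - f (y - (r - 1)) ≤ k - 1 ∧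
        f (y + r) - f y = k + 1 := by
    rintro y h1 h2 ⟨r, a1, a2, a3⟩
    obtain ⟨s, b1, b2, b3, b4⟩ := L_right hf (show 1 ≤ k + 1 by omega) (show 0 ≤ r by omega) a3
    have m1 := L_mono hf (show y - (r - 1) ≤ y - (s - 1) by omega)
    refine ⟨s, b1, ?_, ?_, by omega, b3⟩
    · by_contra h
      have m2 := L_mono hf (show y - (s - 1) ≤ x by omega)
      have := hleft y h1
      omega
    · by_contra h
      have m2 := L_mono hf (show x + M + p ≤ y + (s - 1) by omega)
      have := hright y h2
      omega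
  -- the two ends have the same status
  have hends : Pos f k (c0 + p) → Pos f k c0 := by
    intro h
    obtain ⟨r, a1, a2, a3⟩ := h
    have hR : k + 1 ≤ f (c0 + p + (x + M - c0)) - f (c0 + p) := by
      have e : c0 + p + (x + M - c0) = x + M + p := by ring
      rw [e]
      exact hright _ le_rfl
    obtain ⟨s, b1, b2, b3, b4⟩ := L_right hf (show 1 ≤ k + 1 by omega) (show 0 ≤ x + M - c0 by omega) hR
    have hsr : s ≤ r := by
      by_contra h
      have := L_mono hf (show c0 + p + r ≤ c0 + p + (s - 1) by omega)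
      omega
    have m1 := L_mono hf (show c0 + p - (r - 1) ≤ c0 + p - (s - 1) by omega)
    have hs : s - 1 < c0 - x := by
      by_contra h
      have m2 := L_mono hf (show c0 + p - (s - 1) ≤ x + p by omega)
      omega
    refine ⟨s, b1, ?_, ?_⟩
    · have e1 := hper (c0 - (s - 1)) (by omega) (by omega)
      have e2 : c0 - (s - 1) + p = c0 + p - (s - 1) := by ring
      rw [e2] at e1
      omega
    · have e1 := hper (c0 + s) (by omega) (by omega)
      have e2 : c0 + s + p = c0 + p + s := by ring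
      rw [e2] at e1
      omega
  -- the auxiliary function
  set g : ℤ → ℤ := fun u => p * f u - q * u with hg
  have hgper : ∀ u, x ≤ u → u ≤ x + M → g (u + p) = g u := by
    intro u h1 h2
    simp only [hg]
    rw [hper u h1 h2]
    ring
  have hgF : ∀ y r, g (y + r) + g (y - r) - 2 * g y = p * (f (y + r) - f y - (f y - f (y - r))) := by
    intro y r
    simp only [hg]
    ring
  have hsh := A_shift_right hp hc1 hc2 hgper
  have hne : (Finset.Icc c0 (c0 + p)).Nonempty := ⟨c0, by simp; omega⟩
  obtain ⟨um, hum, hmax⟩ := Finset.exists_max_image (Finset.Icc c0 (c0 + p)) g hne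
  obtain ⟨ul, hul, hmin⟩ := Finset.exists_min_image (Finset.Icc c0 (c0 + p)) g hne
  rw [Finset.mem_Icc] at hum hul
  have hmax' : ∀ u, x ≤ u → u ≤ x + M + p → g u ≤ g um := by
    intro u h1 h2
    obtain ⟨u', a, b, c⟩ := hsh u h1 h2
    rw [← c]
    exact hmax u' (by rw [Finset.mem_Icc]; exact ⟨a, b⟩)
  have hmin' : ∀ u, x ≤ u → u ≤ x + M + p → g ul ≤ g u := by
    intro u h1 h2
    obtain ⟨u', a, b, c⟩ := hsh u h1 h2
    rw [← c]
    exact hmin u' (by rw [Finset.mem_Icc]; exact ⟨a, b⟩)
  -- not Pos at the maximum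
  have hNmax : ¬ Pos f k um := by
    intro h
    obtain ⟨r, a1, a2, a3, a4, a5⟩ := hwit um hum.1 hum.2 h
    have g1 := hmax' (um + r) (by omega) a3
    have g2 := hmax' (um - r) a2 (by omega)
    have g3 := hgF um r
    have e2 := hf (um - r)
    have e3 : um - r + 1 = um - (r - 1) := by ring
    rw [e3] at e2
    have h1 : 1 ≤ f (um + r) - f um - (f um - f (um - r)) := by omega
    have h2 : 0 < p * (f (um + r) - f um - (f um - f (um - r))) := by positivity
    omega
  -- at the minimum: Pos or a square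
  obtain ⟨r1, d1, d2, d3, d4⟩ := L_left hf hk (show 0 ≤ ul - x by omega)
    (show k ≤ f ul - f (ul - (ul - x)) by
      have e : ul - (ul - x) = x := by ring
      rw [e]
      have := hleft ul hul.1
      omega)
  by_cases hsq : f (ul + r1) - f ul = k
  · refine ⟨ul, r1, d1, by omega, ?_, d3, hsq⟩
    by_contra h
    have m2 := L_mono hf (show x + M + p ≤ ul + r1 by omega)
    have := hright ul hul.2
    omega
  have hPmin : Pos f k ul := by
    refine ⟨r1, d1, d4, ?_⟩
    by_cases h : ul + r1 ≤ x + M + p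
    · have g1 := hmin' (ul + r1) (by omega) h
      have g2 := hmin' (ul - r1) (by omega) (by omega)
      have g3 := hgF ul r1
      by_contra h5
      have h1 : f (ul + r1) - f ul - (f ul - f (ul - r1)) ≤ -1 := by omega
      have h2 : p * (f (ul + r1) - f ul - (f ul - f (ul - r1))) < 0 := by nlinarith
      omega
    · have m2 := L_mono hf (show x + M + p ≤ ul + r1 by omega)
      have := hright ul hul.2
      omega
  -- the crossing
  have hmain : ∀ y1 y2, c0 ≤ y1 → y1 ≤ y2 → y2 ≤ c0 + p → Pos f k y1 → ¬ Pos f k y2 →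
      ∃ c r, 1 ≤ r ∧ x ≤ c - r ∧ c + r ≤ x + p + M ∧ f c - f (c - r) = k ∧ f (c + r) - f c = k := by
    intro y1 y2 h1 h2 h3 h4 h5
    obtain ⟨y, r, b1, b2, b3, b4, b5, b6⟩ := cross hf hk (show 0 ≤ c0 + p - x by omega) h2 h4 h5
      (by
        intro y g1 g2
        have m1 := L_mono hf (show y - (c0 + p - x) ≤ x by omega)
        have := hleft y (by omega)
        omega)
    refine ⟨y, r, b3, ?_, ?_, b5, b6⟩
    · by_contra h
      have m2 := L_mono hf (show y - r ≤ x by omega)
      have := hleft y (by omega)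
      omega
    · by_contra h
      have m2 := L_mono hf (show x + M + p ≤ y + r by omega)
      have := hright y (by omega)
      omega
  by_cases hP0 : Pos f k c0
  · exact hmain c0 um le_rfl hum.1 hum.2 hP0 hNmax
  · exact hmain ul (c0 + p) hul.1 hul.2 le_rfl hPmin (fun h => hP0 (hends h))

end Pool.Agent.helper20.LB
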