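import Pool.Agent.helper20.LB.Defs

/-! Module L of project LB (levels): `cross` and `alt_level`. -/

namespace Pool.Agent.helper20.LB

theorem L_mono_nat {f : ℤ → ℤ} (hf : Step f) (a : ℤ) (n : ℕ) :
    f a ≤ f (a + n) ∧ f (a + n) ≤ f a + n := by
  induction n with
  | zero => simp
  | succ n ih =>
    have h := hf (a + n)
    have e : a + ((n + 1 : ℕ) : ℤ) = a + n + 1 := by push_cast; ring
    rw [e]
    push_cast
    constructor <;> omega

theorem L_mono {f : ℤ → ℤ} (hf : Step f) {a b : ℤ} (h : a ≤ b) : f a ≤ f b := by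
  have := (L_mono_nat hf a (b - a).toNat).1
  have e : a + ((b - a).toNat : ℤ) = b := by omega
  rwa [e] at this

theorem L_lip {f : ℤ → ℤ} (hf : Step f) {a b : ℤ} (h : a ≤ b) : f b ≤ f a + (b - a) := by
  have := (L_mono_nat hf a (b - a).toNat).2
  have e : a + ((b - a).toNat : ℤ) = b := by omega
  rw [e] at this
  omega

/-- first point where a function with upward steps at most one reaches the level `k` -/
theorem L_first {g : ℤ → ℤ} {k a b : ℤ} (hg : ∀ x, a ≤ x → x < b → g (x + 1) ≤ g x + 1) (hab : a ≤ b)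
    (ha : g a < k) (hb : k ≤ g b) :
    ∃ c, a < c ∧ c ≤ b ∧ g c = k ∧ g (c - 1) ≤ k - 1 := by
  have key : ∀ n : ℕ, ∀ b : ℤ, b = a + n → (∀ x, a ≤ x → x < b → g (x + 1) ≤ g x + 1) → k ≤ g b →
      ∃ c, a < c ∧ c ≤ b ∧ g c = k ∧ g (c - 1) ≤ k - 1 := by
    intro n
    induction n with
    | zero =>
      intro b hb' _ hk
      simp at hb'
      subst hb'
      omega
    | succ n ih =>
      intro b hb' hg' hk
      by_cases h : k ≤ g (b - 1)
      · obtain ⟨c, h1, h2, h3, h4⟩ := ih (b - 1) (by push_cast at hb'; omega)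
          (fun x hx hx' => hg' x hx (by omega)) h
        exact ⟨c, h1, by omega, h3, h4⟩
      · have h5 := hg' (b - 1) (by push_cast at hb'; omega) (by omega)
        have e : b - 1 + 1 = b := by ring
        rw [e] at h5
        exact ⟨b, by push_cast at hb'; omega, le_refl _, by omega, by omega⟩
  exact key (b - a).toNat b (by omega) hg hb

/-- discrete intermediate value theorem -/
theorem L_ivt {g : ℤ → ℤ} {k a b : ℤ} (hg : ∀ x, a ≤ x → x < b → g (x + 1) ≤ g x + 1) (hab : a ≤ b)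
    (ha : g a ≤ k) (hb : k ≤ g b) :
    ∃ c, a ≤ c ∧ c ≤ b ∧ g c = k := by
  rcases lt_or_eq_of_le ha with h | h
  · obtain ⟨c, h1, h2, h3, _⟩ := L_first hg hab h hb
    exact ⟨c, by omega, h2, h3⟩
  · exact ⟨a, le_refl _, hab, h⟩

/-- smallest radius at which the left half has `k` letters -/
theorem L_left {f : ℤ → ℤ} (hf : Step f) {k z R : ℤ} (hk : 1 ≤ k) (hR0 : 0 ≤ R)
    (hR : k ≤ f z - f (z - R)) :
    ∃ r, 1 ≤ r ∧ r ≤ R ∧ f z - f (z - r) = k ∧ f z - f (z - (r - 1)) ≤ k - 1 := by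
  have := L_first (g := fun r => f z - f (z - r)) (k := k) (a := 0) (b := R)
    (by
      intro x _ _
      have := (hf (z - (x + 1))).2
      have e : z - (x + 1) + 1 = z - x := by ring
      rw [e] at this
      omega) hR0 (by simp; omega) hR
  obtain ⟨c, h1, h2, h3, h4⟩ := this
  exact ⟨c, by omega, h2, h3, h4⟩

/-- smallest radius at which the right half has `k` letters -/
theorem L_right {f : ℤ → ℤ} (hf : Step f) {k z R : ℤ} (hk : 1 ≤ k) (hR0 : 0 ≤ R)
    (hR : k ≤ f (z + R) - f z) :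
    ∃ r, 1 ≤ r ∧ r ≤ R ∧ f (z + r) - f z = k ∧ f (z + (r - 1)) - f z ≤ k - 1 := by
  have := L_first (g := fun r => f (z + r) - f z) (k := k) (a := 0) (b := R)
    (by
      intro x _ _
      have := (hf (z + x)).2
      have e : z + x + 1 = z + (x + 1) := by ring
      rw [e] at this
      omega) hR0 (by simp; omega) hR
  obtain ⟨c, h1, h2, h3, h4⟩ := this
  exact ⟨c, by omega, h2, h3, h4⟩

theorem L_switch {P : ℤ → Prop} {a b : ℤ} (hab : a ≤ b) (ha : P a) (hb : ¬ P b) :
    ∃ y, a < y ∧ y ≤ b ∧ P (y - 1) ∧ ¬ P y := by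
  have key : ∀ n : ℕ, ∀ b : ℤ, b = a + n → ¬ P b → ∃ y, a < y ∧ y ≤ b ∧ P (y - 1) ∧ ¬ P y := by
    intro n
    induction n with
    | zero =>
      intro b hb' hk
      simp at hb'
      subst hb'
      exact absurd ha hk
    | succ n ih =>
      intro b hb' hk
      by_cases h : P (b - 1)
      · exact ⟨b, by push_cast at hb'; omega, le_refl _, h, hk⟩
      · obtain ⟨c, h1, h2, h3, h4⟩ := ih (b - 1) (by push_cast at hb'; omega) h
        exact ⟨c, h1, by omega, h3, h4⟩
  exact key (b - a).toNat b (by omega) hb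

theorem cross {f : ℤ → ℤ} (hf : Step f) {k y1 y2 R : ℤ} (hk : 1 ≤ k) (hR0 : 0 ≤ R) (h12 : y1 ≤ y2)
    (h1 : Pos f k y1) (h2 : ¬ Pos f k y2)
    (hR : ∀ y, y1 ≤ y → y < y2 → k ≤ f y - f (y - R)) :
    ∃ y r, y1 < y ∧ y ≤ y2 ∧ 1 ≤ r ∧ r ≤ R ∧ f y - f (y - r) = k ∧ f (y + r) - f y = k := by
  obtain ⟨y, hy1, hy2, hP, hN⟩ := L_switch h12 h1 h2
  obtain ⟨z, rfl⟩ : ∃ z, y = z + 1 := ⟨y - 1, by ring⟩
  have ez : z + 1 - 1 = z := by ring
  rw [ez] at hP
  obtain ⟨r, hr1, hr2, hr3⟩ := hP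
  have hstep := hf z
  -- the letter is `b`
  have hlet : f (z + 1) = f z + 1 := by
    by_contra hne
    have he : f (z + 1) = f z := by omega
    apply hN
    refine ⟨r, hr1, ?_, ?_⟩
    · have := L_mono hf (show z - (r - 1) ≤ z + 1 - (r - 1) by omega)
      omega
    · have := L_mono hf (show z + r ≤ z + 1 + r by omega)
      omega
  obtain ⟨r1, a1, a2, a3, a4⟩ := L_left hf hk hR0 (hR z (by omega) (by omega))
  have hrr : r ≤ r1 := by
    by_contra h
    have := L_mono hf (show z - (r - 1) ≤ z - r1 by omega)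
    omega
  have hright : k + 1 ≤ f (z + r1) - f z := by
    have := L_mono hf (show z + r ≤ z + r1 by omega)
    omega
  have e1 : z + 1 - r1 = z - (r1 - 1) := by ring
  have e2 := hf (z - r1)
  have e3 : z - r1 + 1 = z - (r1 - 1) := by ring
  rw [e3] at e2
  -- left and right at `y = z+1` with radius `r1`
  have hL1 : f (z + 1) - f (z + 1 - r1) = k := by rw [e1]; omega
  have hR1 : k ≤ f (z + 1 + r1) - f (z + 1) := by
    have := L_mono hf (show z + r1 ≤ z + 1 + r1 by omega)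
    omega
  obtain ⟨r2, b1, b2, b3, b4⟩ := L_left hf hk (show 0 ≤ r1 by omega) (le_of_eq hL1.symm)
  have hr2 : f (z + 1 + r2) - f (z + 1) ≤ k := by
    by_contra h
    exact hN ⟨r2, b1, b4, by omega⟩
  obtain ⟨r3, c1, c2, c3⟩ := L_ivt (g := fun r => f (z + 1 + r) - f (z + 1)) (k := k) (a := r2) (b := r1)
    (by
      intro x _ _
      have := (hf (z + 1 + x)).2
      have e : z + 1 + x + 1 = z + 1 + (x + 1) := by ring
      rw [e] at this
      omega) b2 hr2 hR1
  refine ⟨z + 1, r3, hy1, hy2, by omega, by omega, ?_, c3⟩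
  have m1 := L_mono hf (show z + 1 - r1 ≤ z + 1 - r3 by omega)
  have m2 := L_mono hf (show z + 1 - r3 ≤ z + 1 - r2 by omega)
  omega

theorem alt_level {f : ℤ → ℤ} (hf : Step f) {H D y1 y2 k : ℤ} (hk : 1 ≤ k) (hH : H ≤ k) (hD : 0 ≤ D)
    (h12 : y1 < y2)
    (hp : ∀ r, H ≤ r → r ≤ D → 0 < F f y1 r) (hn : ∀ r, H ≤ r → r ≤ D → F f y2 r < 0)
    (hkD : k < f y1 - f (y2 - D)) :
    ∃ y r, y1 < y ∧ y ≤ y2 ∧ 1 ≤ r ∧ r ≤ D ∧ f y - f (y - r) = k ∧ f (y + r) - f y = k := by
  have m0 := L_mono hf (le_of_lt h12)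
  apply cross hf hk hD (le_of_lt h12)
  · have m1 := L_mono hf (show y1 - D ≤ y2 - D by omega)
    obtain ⟨r, a1, a2, a3, a4⟩ := L_left hf hk hD (show k ≤ f y1 - f (y1 - D) by omega)
    have l := L_lip hf (show y1 - r ≤ y1 by omega)
    have hF := hp r (by omega) a2
    refine ⟨r, a1, a4, ?_⟩
    unfold F at hF
    omega
  · rintro ⟨r, a1, a2, a3⟩
    have l := L_lip hf (show y2 ≤ y2 + r by omega)
    have hrD : r ≤ D := by
      by_contra h
      have := L_mono hf (show y2 - (r - 1) ≤ y2 - D by omega)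
      omega
    have hF := hn r (by omega) hrD
    have e2 := hf (y2 - r)
    have e3 : y2 - r + 1 = y2 - (r - 1) := by ring
    rw [e3] at e2
    unfold F at hF
    omega
  · intro y h1 h2
    have m1 := L_mono hf h1
    have m2 := L_mono hf (show y - D ≤ y2 - D by omega)
    omega

end Pool.Agent.helper20.LB
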